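import Pool.Agent.Helper1.OA.End

/-!
# Integral Jacobi diagrams on the circle with an odd automorphism vanish

An automorphism of a Jacobi diagram on the oriented circle is a pair `s, r`: the permutation `s` of
the vertices and for every vertex `i` the permutation `r i` of the half-edges at `i`. It preserves
the circle with its orientation and commutes with the involution which gives the edges. Its sign is
the product of the signs of the `r i`. Diagrams with an automorphism of sign `-1` are killed by `2`
(AS). They are zero in the group `A` of Jacobi diagrams with integral coefficients modulo AS, IHX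
and STU.
-/

namespace Pool.Agent.Results.MP_ca5421_gt.OddAutomorphism

open Pool.Agent.Helper1.OA

/-- **Jacobi diagrams on the circle with an automorphism of sign `-1` are zero over the
integers.** -/
theorem result {n : ℕ} (D : Diag (Fin n)) (s : Equiv.Perm (Fin n))
    (r : Fin n → Equiv.Perm (Fin 3)) (hK : s '' D.K = D.K) (hr : ∀ i ∈ D.K, r i = 1)
    (h : ∀ x, D.ι (au s r x) = au s r (D.ι x)) (hs : ∏ i, Equiv.Perm.sign (r i) = -1) :
    cls D = 0 :=
  main_zero D s r hK hr h hs

end Pool.Agent.Results.MP_ca5421_gt.OddAutomorphism
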