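import Pool.Agent.Helper1.TL.End

/-!
# Integral Jacobi diagrams on the circle: torsion prime to 6 is carried by diagrams with three loops

`conn d` is the subgroup of the group `A` of Jacobi diagrams on the oriented circle with integral
coefficients (modulo AS, IHX, STU) spanned by the connected diagrams of degree `d`, and
`threeLoop d` is the subgroup spanned by those with at least three loops. The quotient has no
torsion prime to 6, and no odd torsion at all if `d` is even.
-/

namespace Pool.Agent.Results.MP_ca5421_gt.TorsionThreeLoop

open Pool.Agent.Helper1.JD Pool.Agent.Helper1.TL

/-- **Torsion of the group of connected Jacobi diagrams on the circle.** Let `d ≥ 3` and let `n` be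
an odd integer, not divisible by `3` if `d` is odd. If `x` is a combination of connected diagrams
of degree `d` and `n x` is a combination of connected diagrams of degree `d` with at least three
loops (for instance `n x = 0`), then `x` is such a combination. -/
theorem result (d : ℕ) (hd : 3 ≤ d) (n : ℤ) (hn : Odd n) (h3 : Odd d → ¬ (3 : ℤ) ∣ n)
    (x : A) (hx : x ∈ conn d) (h : n • x ∈ threeLoop d) : x ∈ threeLoop d :=
  final hd hx hn h3 h

end Pool.Agent.Results.MP_ca5421_gt.TorsionThreeLoop
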