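import Pool.Agent.Helper1.JD.Str6

/-!
# Integral Jacobi diagrams on the circle: the torsion is carried by diagrams with two loops

`conn d` is the subgroup of the group `A` of Jacobi diagrams on the oriented circle with integral
coefficients (modulo AS, IHX, STU) spanned by the connected diagrams of degree `d`, and `twoLoop d`
is the subgroup spanned by those with at least two loops. We determine the quotient and show that
all torsion elements of `conn d` lie in `twoLoop d`.
-/

namespace Pool.Agent.Results.MP_ca5421_gt.TorsionTwoLoop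

open Pool.Agent.Helper1.JD

theorem Kl_le_twoLoop {n : ℕ} : Kl (n + 1) n ≤ twoLoop (n + 1) := by
  unfold Kl
  rw [AddSubgroup.closure_le]
  rintro x ⟨t, l, ι, h1, h2, h3, rfl⟩
  refine AddSubgroup.subset_closure ⟨t, l, h3.diag, h1, by omega, h3.conn, cl_valid h3⟩

theorem twoLoop_le (d : ℕ) : twoLoop d ≤ conn d := by
  apply AddSubgroup.closure_mono
  rintro x ⟨t, l, D, h1, h2, h3, h4⟩
  exact ⟨t, l, D, h1, h3, h4⟩

theorem legs_pos {t l : ℕ} (D : Diag t l) (hd : 0 < t + l) : 0 < l := by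
  rcases Nat.eq_zero_or_pos l with rfl | h
  · exfalso
    have hne : (Set.univ : Set (Half t 0)).Nonempty := ⟨Sum.inl (⟨0, by omega⟩, 0), trivial⟩
    obtain ⟨j, _⟩ := D.legs Set.univ ⟨fun _ _ => trivial, fun _ _ _ _ => trivial⟩ hne
    exact j.elim0
  · exact h

theorem conn_le {n : ℕ} (hn : 2 ≤ n) :
    conn (n + 1) ≤ AddSubgroup.zmultiples (cls (wheel n)) ⊔ twoLoop (n + 1) := by
  unfold conn
  rw [AddSubgroup.closure_le]
  rintro x ⟨t, l, D, h1, h2, rfl⟩
  have hl := legs_pos D (by omega)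
  rw [cls_eq_cl D h2 hl]
  have h3 := Kl_le (d := n + 1) (by omega) l t D.ι (valid_of D h2 hl) h1
  have h4 : Kl (n + 1) (n + 1) ≤
      AddSubgroup.zmultiples (cls (wheel n)) ⊔ twoLoop (n + 1) := by
    unfold Kl
    rw [AddSubgroup.closure_le]
    rintro x ⟨t, l, ι, h1, h2, h3, rfl⟩
    have hK : Kl (n + 1) n ≤ AddSubgroup.zmultiples (cls (wheel n)) ⊔ twoLoop (n + 1) :=
      Kl_le_twoLoop.trans le_sup_right
    rcases Nat.lt_or_ge l (n + 1) with h | h
    · exact hK (mem_Kl h3 h1 (by omega))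
    · have e1 : l = n + 1 := by omega
      have e2 : t = n + 1 := by omega
      subst e1
      subst e2
      exact cl_top hn h3 hK (AddSubgroup.mem_sup_left (AddSubgroup.mem_zmultiples _))
  exact h4 h3

theorem wheel_mem (n : ℕ) : cls (wheel n) ∈ conn (n + 1) :=
  AddSubgroup.subset_closure ⟨n + 1, n + 1, wheel n, by omega, wheel_connected n, rfl⟩

theorem dvd_of_twoLoop {d : ℕ} {W : A →+ ℤ}
    (hW : ∀ (t l : ℕ) (D : Diag t l), 1 ≤ t → 2 ^ (t + 1) ∣ W (cls D)) {x : A}
    (hx : x ∈ twoLoop d) : 2 ^ (d + 2) ∣ W x := by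
  unfold twoLoop at hx
  induction hx using AddSubgroup.closure_induction with
  | mem x hx =>
    obtain ⟨t, l, D, h1, h2, h3, rfl⟩ := hx
    exact (pow_dvd_pow 2 (by omega)).trans (hW t l D (by omega))
  | zero => simp
  | add x y _ _ hx hy => rw [map_add]; exact dvd_add hx hy
  | neg x _ hx => rw [map_neg]; exact (dvd_neg).2 hx

theorem not_dvd {n : ℕ} (hn : 2 ≤ n) (ho : Odd (n + 1)) :
    ¬ (2 ^ (n + 1 + 2) : ℤ) ∣ 2 ^ (n + 1) * (2 + (-2) ^ (n + 1)) := by
  rw [pow_add 2 (n + 1) 2, mul_dvd_mul_iff_left (by positivity)]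
  obtain ⟨m, rfl⟩ : ∃ m, n = m + 2 := ⟨n - 2, by omega⟩
  intro h
  have e : (-2 : ℤ) ^ (m + 2 + 1) = 4 * (-2) ^ (m + 1) := by
    rw [show m + 2 + 1 = (m + 1) + 2 by ring, pow_add]; ring
  rw [e] at h
  have h2 : (4 : ℤ) ∣ 2 := by
    have h3 : (4 : ℤ) ∣ 4 * (-2) ^ (m + 1) := dvd_mul_right _ _
    have h4 : (2 : ℤ) ^ 2 = 4 := by norm_num
    rw [h4] at h
    exact (dvd_add_left h3).1 h
  omega

/-- **Torsion of the group of connected Jacobi diagrams on the circle.** Let `d ≥ 3`. There is an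
element `w` (the wheel with `d` legs) which together with the diagrams with at least two loops
generates `conn d`; for even `d` no nonzero multiple of `w` lies in `twoLoop d`, for odd `d` the
element `2 w` lies in `twoLoop d` but `w` does not. All torsion elements of `conn d` lie in
`twoLoop d`. -/
theorem result (d : ℕ) (hd : 3 ≤ d) :
    (∃ w ∈ conn d, conn d = AddSubgroup.zmultiples w ⊔ twoLoop d ∧
      (Even d → ∀ c : ℤ, c • w ∈ twoLoop d → c = 0) ∧
      (Odd d → (2 : ℤ) • w ∈ twoLoop d ∧ w ∉ twoLoop d)) ∧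
    ∀ x ∈ conn d, ∀ n : ℤ, n ≠ 0 → n • x = 0 → x ∈ twoLoop d := by
  obtain ⟨n, rfl⟩ : ∃ n, d = n + 1 := ⟨d - 1, by omega⟩
  have hn : 2 ≤ n := by omega
  have hgen : conn (n + 1) = AddSubgroup.zmultiples (cls (wheel n)) ⊔ twoLoop (n + 1) := by
    apply le_antisymm (conn_le hn)
    apply sup_le _ (twoLoop_le _)
    rw [AddSubgroup.zmultiples_le]
    exact wheel_mem n
  have heven : Even (n + 1) → ∀ c : ℤ, c • cls (wheel n) ∈ twoLoop (n + 1) → c = 0 :=
    fun h c hc => wheel_even n h c hc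
  obtain ⟨W, hW1, hW2⟩ := exists_quat
  have hodd : Odd (n + 1) → (2 : ℤ) • cls (wheel n) ∈ twoLoop (n + 1) ∧
      cls (wheel n) ∉ twoLoop (n + 1) := by
    intro ho
    refine ⟨Kl_le_twoLoop (wheel_rev ho), fun h => ?_⟩
    have := dvd_of_twoLoop hW1 h
    rw [hW2] at this
    exact not_dvd hn ho this
  refine ⟨⟨cls (wheel n), wheel_mem n, hgen, heven, hodd⟩, ?_⟩
  intro x hx m hm hmx
  rw [hgen, AddSubgroup.mem_sup] at hx
  obtain ⟨y, hy, f, hf, rfl⟩ := hx
  obtain ⟨c, rfl⟩ := AddSubgroup.mem_zmultiples_iff.1 hy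
  rcases Nat.even_or_odd (n + 1) with he | ho
  · have h1 : (m * c) • cls (wheel n) ∈ twoLoop (n + 1) := by
      have : (m * c) • cls (wheel n) = -(m • f) := by
        rw [mul_smul, eq_neg_iff_add_eq_zero, ← smul_add]
        exact hmx
      rw [this]
      exact neg_mem (zsmul_mem hf m)
    have h2 := heven he _ h1
    have hc : c = 0 := by
      rcases mul_eq_zero.1 h2 with h | h
      · exact absurd h hm
      · exact h
    rw [hc, zero_smul, zero_add]
    exact hf
  · rcases Int.even_or_odd' c with ⟨k, rfl | rfl⟩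
    · have : (2 * k) • cls (wheel n) = k • ((2 : ℤ) • cls (wheel n)) := by
        rw [smul_smul, mul_comm]
      rw [this]
      exact add_mem (zsmul_mem (hodd ho).1 k) hf
    · exfalso
      have hWx : W ((2 * k + 1) • cls (wheel n) + f) = 0 := by
        have h1 : m • W ((2 * k + 1) • cls (wheel n) + f) = 0 := by
          rw [← map_zsmul, hmx, map_zero]
        rw [smul_eq_mul] at h1
        rcases mul_eq_zero.1 h1 with h | h
        · exact absurd h hm
        · exact h
      have e : (2 * k + 1) • cls (wheel n) + f =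
          cls (wheel n) + (k • ((2 : ℤ) • cls (wheel n)) + f) := by
        rw [add_smul, one_smul, smul_smul, mul_comm 2 k]
        abel
      have hf' : k • ((2 : ℤ) • cls (wheel n)) + f ∈ twoLoop (n + 1) :=
        add_mem (zsmul_mem (hodd ho).1 k) hf
      have h2 := dvd_of_twoLoop hW1 hf'
      rw [e, map_add, hW2] at hWx
      apply not_dvd hn ho
      have : (2 : ℤ) ^ (n + 1) * (2 + (-2) ^ (n + 1)) =
          -(W (k • ((2 : ℤ) • cls (wheel n)) + f)) := by linarith
      rw [this]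
      exact (dvd_neg).2 h2

end Pool.Agent.Results.MP_ca5421_gt.TorsionTwoLoop
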